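import Mathlib
import Pool.Agent.H32.Ekel

set_option autoImplicit false

namespace Pool.Agent.Results.MP_7e7193_an.Bound

open Pool.Agent.H32.Ekel

/-- `δ` has the Bishop-Phelps-Bollobas property for `(X, ℝ, ε)`. -/
def Good (X : Type*) [NormedAddCommGroup X] [NormedSpace ℝ X] (ε δ : ℝ) : Prop :=
  ∀ (x : X) (f : X →L[ℝ] ℝ), ‖x‖ = 1 → ‖f‖ = 1 → 1 - ε < f x →
    ∃ (y : X) (g : X →L[ℝ] ℝ), ‖y‖ = 1 ∧ ‖g‖ = 1 ∧ |g y| = 1 ∧ ‖x - y‖ < δ ∧ ‖f - g‖ < δ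

/-- The modulus `Φ^S(X, ℝ, ε)`. -/
noncomputable def Phi (X : Type*) [NormedAddCommGroup X] [NormedSpace ℝ X] (ε : ℝ) : ℝ :=
  sInf {δ : ℝ | 0 < δ ∧ Good X ε δ}

section
variable {X : Type*} [NormedAddCommGroup X] [NormedSpace ℝ X] [CompleteSpace X]

omit [CompleteSpace X] in
lemma tri (G A B : X →L[ℝ] ℝ) (u : X →L[ℝ] ℝ) : ‖G + A + B - u‖ ≤ ‖G - u‖ + ‖A‖ + ‖B‖ := by
  have : G + A + B - u = (G - u) + A + B := by abel
  rw [this]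
  exact norm_add₃_le

lemma one_bound (x : X) (f : X →L[ℝ] ℝ) (hx : ‖x‖ = 1) (hf : ‖f‖ = 1) (δ : ℝ) (hδ : 1 < δ) :
    ∃ (y : X) (g : X →L[ℝ] ℝ), ‖y‖ = 1 ∧ ‖g‖ = 1 ∧ |g y| = 1 ∧ ‖x - y‖ < δ ∧ ‖f - g‖ < δ := by
  obtain ⟨k, hk, hk2⟩ := exists_between (show (0 : ℝ) < min ((δ - 1) / 3) 1 from
    lt_min (by linarith) one_pos)
  have hk3 : k < (δ - 1) / 3 := lt_of_lt_of_le hk2 (min_le_left _ _)
  have hk4 : k < 1 := lt_of_lt_of_le hk2 (min_le_right _ _)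
  obtain ⟨y, G1, G2, G3, hy1, hy2, -, e1, e2, e3, e4⟩ := combo f x hx 1 le_rfl k hk
  rw [one_mul] at e4
  have a1 := abs_le.mp (app_le f y hy1)
  have a2 := abs_le.mp (app_le f _ hy2)
  have a3 := abs_le.mp (app_le G1 x hx.le)
  have a4 := abs_le.mp (app_le G2 x hx.le)
  have a5 := abs_le.mp (app_le G3 y hy1)
  have a6 := abs_le.mp (app_le G3 _ hy2)
  have f1 : f y = G1 y + G2 y + G3 y := by rw [e1]; rfl
  have f2 : f (y - x) = G1 (y - x) + G2 (y - x) + G3 (y - x) := by rw [e1]; rfl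
  have m1 := map_sub G1 y x
  have m2 := map_sub G2 y x
  have b1 : ‖G1‖ ≤ 1 + k := by linarith [a1.2, a4.1, a5.1]
  have b2 : ‖G2‖ ≤ 1 + k := by linarith [a2.2, a3.2, a6.1]
  have b3 : 1 ≤ ‖G1‖ + ‖G2‖ + ‖G3‖ := by
    rw [← hf, e1]; exact norm_add₃_le
  rcases le_total ‖G2‖ ‖G1‖ with h | h
  · have hp : 0 < ‖G1‖ := by linarith
    obtain ⟨n1, n2, n3, n4⟩ := normalise G1 y hy1 hp (by rw [e3, abs_norm])
    refine ⟨y, _, n1, n2, n3, by rw [norm_sub_rev]; linarith, ?_⟩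
    have t := tri G1 G2 G3 (‖G1‖⁻¹ • G1)
    rw [← e1, n4] at t
    rcases abs_cases (‖G1‖ - 1) with c | c <;> linarith [c.1, c.2]
  · have hp : 0 < ‖G2‖ := by linarith
    have hxy : ‖x - y‖ ≤ 1 := by rw [norm_sub_rev]; exact hy2
    obtain ⟨n1, n2, n3, n4⟩ := normalise G2 (x - y) hxy hp (by
      rw [← neg_sub y x, map_neg, abs_neg, e4, abs_norm])
    refine ⟨x - y, _, n1, n2, n3, by rw [sub_sub_cancel]; linarith, ?_⟩
    have t := tri G2 G1 G3 (‖G2‖⁻¹ • G2)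
    rw [add_comm G2 G1, ← e1, n4] at t
    rcases abs_cases (‖G2‖ - 1) with c | c <;> linarith [c.1, c.2]

lemma sqrt_bound (ε : ℝ) (hε : 0 < ε) (hε2 : ε < 2) (x : X) (f : X →L[ℝ] ℝ) (hx : ‖x‖ = 1)
    (hf : ‖f‖ = 1) (hfx : 1 - ε < f x) (δ : ℝ) (hδ : Real.sqrt (2 * ε) < δ) :
    ∃ (y : X) (g : X →L[ℝ] ℝ), ‖y‖ = 1 ∧ ‖g‖ = 1 ∧ |g y| = 1 ∧ ‖x - y‖ < δ ∧ ‖f - g‖ < δ := by
  set s := Real.sqrt (2 * ε) with hs
  have hs0 : 0 < s := Real.sqrt_pos.mpr (by linarith)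
  have hss : s * s = 2 * ε := Real.mul_self_sqrt (by linarith)
  have hs2 : s < 2 := by nlinarith
  obtain ⟨y, G1, G2, G3, hy1, hy2, h0, e1, e2, e3, e4⟩ :=
    combo f x hx 3 (by norm_num) (s / 2) (by linarith)
  have a1 := abs_le.mp (app_le f y hy1)
  have hyx : ‖y - x‖ ≤ 2 := by
    have := norm_sub_le y x
    linarith
  have z2 : ‖G2‖ = 0 := by
    have h1 := G2.le_opNorm (y - x)
    rw [Real.norm_eq_abs] at h1
    have h2 := le_abs_self (G2 (y - x))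
    nlinarith [norm_nonneg G2]
  have b3 : 1 ≤ ‖G1‖ + ‖G2‖ + ‖G3‖ := by
    rw [← hf, e1]; exact norm_add₃_le
  have a4 := abs_le.mp (app_le G2 y hy1)
  have a5 := abs_le.mp (app_le G3 y hy1)
  have f1 : f y = G1 y + G2 y + G3 y := by rw [e1]; rfl
  have hp : 0 < ‖G1‖ := by linarith
  obtain ⟨n1, n2, n3, n4⟩ := normalise G1 y hy1 hp (by rw [e3, abs_norm])
  refine ⟨y, _, n1, n2, n3, ?_, ?_⟩
  · rw [norm_sub_rev]
    have h1 : s / 2 * ‖y - x‖ < s / 2 * s := by nlinarith [a1.2]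
    have h2 := lt_of_mul_lt_mul_left h1 (by linarith)
    linarith
  · have t := tri G1 G2 G3 (‖G1‖⁻¹ • G1)
    rw [← e1, n4] at t
    rcases abs_cases (‖G1‖ - 1) with c | c <;> linarith [c.1, c.2, a1.2, a4.1, a5.1]

end

theorem result (X : Type*) [NormedAddCommGroup X] [NormedSpace ℝ X] [CompleteSpace X]
    (ε : ℝ) (hε : 0 < ε) (hε2 : ε < 2) :
    (∀ δ : ℝ, min (Real.sqrt (2 * ε)) 1 < δ → Good X ε δ) ∧
      Phi X ε ≤ min (Real.sqrt (2 * ε)) 1 := by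
  have h1 : ∀ δ : ℝ, min (Real.sqrt (2 * ε)) 1 < δ → Good X ε δ := by
    intro δ hδ x f hx hf hfx
    rcases min_lt_iff.mp hδ with h | h
    · exact sqrt_bound ε hε hε2 x f hx hf hfx δ h
    · exact one_bound x f hx hf δ h
  refine ⟨h1, le_of_forall_gt_imp_ge_of_dense fun δ hδ => ?_⟩
  have h0 : 0 ≤ min (Real.sqrt (2 * ε)) 1 := le_min (Real.sqrt_nonneg _) zero_le_one
  exact csInf_le ⟨0, fun d hd => hd.1.le⟩ ⟨lt_of_le_of_lt h0 hδ, h1 δ hδ⟩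

end Pool.Agent.Results.MP_7e7193_an.Bound
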